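import Mathlib
import Pool.Agent.H533R2.VS.All2

set_option autoImplicit false

/-! Transfer of the perfect-set dichotomy along Borel equivariant codings. -/

namespace Pool.Agent.H31R3.AL

open Set MeasureTheory
open Pool.Agent.H533R2.VO (RS RIso VC Dich)

/-- A Borel family of pairwise inequivalent points contains a continuous one. -/
theorem cont_of_borel {Y : Type} [TopologicalSpace Y] [SecondCountableTopology Y]
    [MeasurableSpace Y] [BorelSpace Y] (f : (ℕ → Bool) → Y) (hf : Measurable f) :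
    ∃ h : (ℕ → Bool) → (ℕ → Bool), Function.Injective h ∧ Continuous (f ∘ h) := by
  have hPB : PolishSpace (ℕ → Bool) := Pool.Agent.H533R2.VS.kis_pB ℕ
  have hcard : Cardinal.mk (ℕ → Bool) = Cardinal.continuum := by simp
  have h1 : ¬ (univ : Set (ℕ → Bool)).Countable := by
    intro h2
    have h4 : Cardinal.mk (ℕ → Bool) ≤ Cardinal.aleph0 :=
      Cardinal.mk_le_aleph0_iff.2 (countable_univ_iff.1 h2)
    rw [hcard] at h4
    exact absurd h4 (not_le.2 Cardinal.aleph0_lt_continuum)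
  obtain ⟨t', ht', hc, hP⟩ := hf.exists_continuous
  obtain ⟨h, -, h5, h6⟩ := @IsClosed.exists_nat_bool_injection_of_not_countable (ℕ → Bool) t' hP
    univ (@isClosed_univ _ t') h1
  refine ⟨h, h6, ?_⟩
  exact @Continuous.comp (ℕ → Bool) (ℕ → Bool) Y Pi.topologicalSpace t' _ h f hc h5

/-- The transfer lemma. -/
theorem transfer {Y : Type} [Nonempty Y] [TopologicalSpace Y] [PolishSpace Y]
    [MeasurableSpace Y] [BorelSpace Y] {b : ℕ → ℕ}
    (act : Equiv.Perm ℕ → Y → Y) (V : Y → Prop) (W : RS b → Prop) (c : Y → RS b)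
    (hc : Measurable c) (hinj : ∀ x y, V x → V y → c x = c y → x = y)
    (hact : ∀ σ x, ∀ i v, c (act σ x) i (⇑σ ∘ v) = c x i v)
    (hW : ∀ x, V x → W (c x)) (hVC : VC W)
    (B : Set Y) (hB : MeasurableSet B) (hBV : ∀ x ∈ B, V x)
    (hBi : ∀ x ∈ B, ∀ σ, act σ x ∈ B) :
    (∃ f : ℕ → Y, ∀ x ∈ B, ∃ n, ∃ σ : Equiv.Perm ℕ, x = act σ (f n)) ∨
    (∃ g : (ℕ → Bool) → Y, Continuous g ∧ (∀ A, g A ∈ B) ∧
      ∀ A A', (∃ σ : Equiv.Perm ℕ, g A' = act σ (g A)) → A = A') := by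
  classical
  have hinjB : InjOn c B := fun x hx y hy h => hinj x y (hBV x hx) (hBV y hy) h
  have hB1 : MeasurableSet (c '' B) := hB.image_of_measurable_injOn hc hinjB
  have hRs : ∀ x y : RS b, RIso x y → RIso y x := by
    rintro x y ⟨σ, hσ⟩
    refine ⟨σ.symm, fun i v => ?_⟩
    rw [← hσ i (⇑σ.symm ∘ v)]
    congr 1
    funext k
    simp
  have huniq : ∀ (σ : Equiv.Perm ℕ) (x : Y) (z : RS b), (∀ i v, z i (⇑σ ∘ v) = c x i v) →
      z = c (act σ x) := by
    intro σ x z h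
    funext i v
    have h1 := h i (⇑σ.symm ∘ v)
    have h2 := hact σ x i (⇑σ.symm ∘ v)
    have e : ⇑σ ∘ (⇑σ.symm ∘ v) = v := by
      funext k
      simp
    rw [e] at h1 h2
    rw [h1, h2]
  have hone : ∀ x y : RS b, RIso x y → x ∈ c '' B → y ∈ c '' B := by
    rintro x y ⟨σ, hσ⟩ ⟨x0, hx0, rfl⟩
    exact ⟨act σ x0, hBi x0 hx0 σ, (huniq σ x0 y hσ).symm⟩
  rcases hVC (c '' B) hB1 (fun x y h => ⟨hone x y h, hone y x (hRs x y h)⟩)
    (by rintro _ ⟨x, hx, rfl⟩; exact hW x (hBV x hx)) with ⟨f, hf⟩ | ⟨g, hg, hgB, hgi⟩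
  · left
    by_cases hne : B.Nonempty
    · obtain ⟨x0, hx0⟩ := hne
      have hch : ∀ n, ∃ y : Y, f n ∈ c '' B → y ∈ B ∧ c y = f n := by
        intro n
        by_cases h : f n ∈ c '' B
        · obtain ⟨y, hy, hy2⟩ := h
          exact ⟨y, fun _ => ⟨hy, hy2⟩⟩
        · exact ⟨x0, fun h' => absurd h' h⟩
      choose f' hf' using hch
      refine ⟨f', fun x hx => ?_⟩
      obtain ⟨n, hn⟩ := hf (c x) ⟨x, hx, rfl⟩
      have hfn : f n ∈ c '' B := hone _ _ (hRs _ _ hn) ⟨x, hx, rfl⟩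
      obtain ⟨h1, h2⟩ := hf' n hfn
      obtain ⟨σ, hσ⟩ := hn
      rw [← h2] at hσ
      have h3 := huniq σ (f' n) (c x) hσ
      refine ⟨n, σ, hinj _ _ (hBV x hx) (hBV _ (hBi _ h1 σ)) h3⟩
    · exact ⟨fun _ => Classical.arbitrary Y, fun x hx => absurd ⟨x, hx⟩ hne⟩
  · right
    choose X hXB hXc using hgB
    have hsb : StandardBorelSpace B := hB.standardBorel
    have hcB : Measurable fun x : B => c x.1 := hc.comp measurable_subtype_coe
    have hme : MeasurableEmbedding fun x : B => c x.1 :=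
      hcB.measurableEmbedding fun x y h => Subtype.ext (hinjB x.2 y.2 h)
    have hX : Measurable fun A => (⟨X A, hXB A⟩ : B) := by
      rw [← hme.measurable_comp_iff]
      have e : ((fun x : B => c x.1) ∘ fun A => (⟨X A, hXB A⟩ : B)) = g := by
        funext A
        exact hXc A
      rw [e]
      exact hg.measurable
    have hX2 : Measurable X := measurable_subtype_coe.comp hX
    obtain ⟨h, h1, h2⟩ := cont_of_borel X hX2
    refine ⟨X ∘ h, h2, fun A => hXB _, ?_⟩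
    rintro A A' ⟨σ, hσ⟩
    apply h1
    apply hgi
    refine ⟨σ, fun i v => ?_⟩
    rw [← hXc, ← hXc]
    have h3 : X (h A') = act σ (X (h A)) := hσ
    rw [h3]
    exact hact σ _ i v

end Pool.Agent.H31R3.AL
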