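import Pool.Agent.H31R3.AL.Comb
import Pool.Agent.H31R3.AL.Transfer

set_option autoImplicit false

/-! Locally almost linear relations: coding as ordered sums of locally finite structures. -/

namespace Pool.Agent.H31R3.AL

open Set MeasureTheory
open Pool.Agent.H533R2.VO (RS RIso VC Dich)
open Pool.Agent.H533R2.VS (p2 IsOSum)
open Pool.Agent.H899R2.VP (gaifman HasCliqueSubdivision)

/-- arities of the code -/
def br (a : ℕ → ℕ) : ℕ → ℕ
  | 0 => 2
  | 1 => 2
  | 2 => 2
  | (i + 3) => a i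

/-- a binary relation and further relations -/
abbrev XX (a : ℕ → ℕ) : Type := (ℕ → ℕ → Bool) × RS a

def c0 {m : ℕ} (v : Fin m → ℕ) : ℕ := if h : 0 < m then v ⟨0, h⟩ else 0
def c1 {m : ℕ} (v : Fin m → ℕ) : ℕ := if h : 1 < m then v ⟨1, h⟩ else 0

open Classical in
/-- the code -/
noncomputable def code {a : ℕ → ℕ} (x : XX a) : RS (br a)
  | 0 => fun v => decide (Ord x.1 (c0 v) (c1 v))
  | 1 => fun v => decide (Irr x.1 (c0 v) (c1 v))
  | 2 => fun v => decide (x.1 (c0 v) (c1 v) = true ∧ Near x.1 (c0 v) (c1 v))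
  | (i + 3) => x.2 i

/-- locally almost linear -/
structure Alm {a : ℕ → ℕ} (x : XX a) : Prop where
  fin : ∀ m, {n | Irr x.1 m n}.Finite
  loc : ∀ i t, x.2 i t = true → ∀ j k, t j = t k ∨ Irr x.1 (t j) (t k)

/-- relabelling -/
def rel {a : ℕ → ℕ} (σ : Equiv.Perm ℕ) (x : XX a) : XX a :=
  (fun m n => x.1 (σ.symm m) (σ.symm n), fun i v => x.2 i (⇑σ.symm ∘ v))

theorem c0_p2 {m : ℕ} (h : 0 < m) (u v : ℕ) : c0 (p2 u v : Fin m → ℕ) = u := by
  unfold c0 p2
  rw [dif_pos h]
  simp

theorem c1_p2 {m : ℕ} (h : 1 < m) (u v : ℕ) : c1 (p2 u v : Fin m → ℕ) = v := by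
  unfold c1 p2
  rw [dif_pos h]
  simp

theorem c0_comp {m : ℕ} (h : 0 < m) (f : ℕ → ℕ) (v : Fin m → ℕ) : c0 (f ∘ v) = f (c0 v) := by
  unfold c0
  rw [dif_pos h, dif_pos h]
  rfl

theorem c1_comp {m : ℕ} (h : 1 < m) (f : ℕ → ℕ) (v : Fin m → ℕ) : c1 (f ∘ v) = f (c1 v) := by
  unfold c1
  rw [dif_pos h, dif_pos h]
  rfl

theorem c_cases (v : Fin 2 → ℕ) (j : Fin 2) : v j = c0 v ∨ v j = c1 v := by
  fin_cases j
  · left
    unfold c0
    rw [dif_pos (by norm_num)]
  · right
    unfold c1
    rw [dif_pos (by norm_num)]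

theorem br0 (a : ℕ → ℕ) : 0 < br a 0 ∧ 1 < br a 0 := ⟨Nat.two_pos, Nat.one_lt_two⟩
theorem br1 (a : ℕ → ℕ) : 0 < br a 1 ∧ 1 < br a 1 := ⟨Nat.two_pos, Nat.one_lt_two⟩
theorem br2 (a : ℕ → ℕ) : 0 < br a 2 ∧ 1 < br a 2 := ⟨Nat.two_pos, Nat.one_lt_two⟩

open Classical in
theorem code_zero {a : ℕ → ℕ} (x : XX a) (v : Fin (br a 0) → ℕ) :
    code x 0 v = true ↔ Ord x.1 (c0 v) (c1 v) := by
  show decide (Ord x.1 (c0 v) (c1 v)) = true ↔ _
  exact decide_eq_true_iff

open Classical in
theorem code_one {a : ℕ → ℕ} (x : XX a) (v : Fin (br a 1) → ℕ) :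
    code x 1 v = true ↔ Irr x.1 (c0 v) (c1 v) := by
  show decide (Irr x.1 (c0 v) (c1 v)) = true ↔ _
  exact decide_eq_true_iff

open Classical in
theorem code_two {a : ℕ → ℕ} (x : XX a) (v : Fin (br a 2) → ℕ) :
    code x 2 v = true ↔ x.1 (c0 v) (c1 v) = true ∧ Near x.1 (c0 v) (c1 v) := by
  show decide (x.1 (c0 v) (c1 v) = true ∧ Near x.1 (c0 v) (c1 v)) = true ↔ _
  exact decide_eq_true_iff

/-! ### Relabelling -/

section act

variable (r : ℕ → ℕ → Bool) (σ : Equiv.Perm ℕ)

/-- relabelled relation -/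
def rl : ℕ → ℕ → Bool := fun m n => r (σ.symm m) (σ.symm n)

theorem rl_arr (m n : ℕ) : Arr (rl r σ) (σ m) (σ n) ↔ Arr r m n := by
  unfold Arr rl
  simp

theorem rl_arr' (m n : ℕ) : Arr (rl r σ) m n ↔ Arr r (σ.symm m) (σ.symm n) := Iff.rfl

theorem rl_irr (m n : ℕ) : Irr (rl r σ) (σ m) (σ n) ↔ Irr r m n := by
  unfold Irr Bad
  refine and_congr σ.injective.ne_iff (or_congr ?_ ?_)
  · rw [rl_arr, rl_arr]
  · constructor
    · rintro ⟨a, b, c, ⟨h1, h2, h3⟩, h4, h5⟩
      refine ⟨σ.symm a, σ.symm b, σ.symm c, ⟨(rl_arr' r σ a b).1 h1, (rl_arr' r σ b c).1 h2,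
        fun h => h3 ((rl_arr' r σ a c).2 h)⟩, ?_, ?_⟩
      · rcases h4 with h | h | h
        · exact Or.inl (by rw [← h]; simp)
        · exact Or.inr (Or.inl (by rw [← h]; simp))
        · exact Or.inr (Or.inr (by rw [← h]; simp))
      · rcases h5 with h | h | h
        · exact Or.inl (by rw [← h]; simp)
        · exact Or.inr (Or.inl (by rw [← h]; simp))
        · exact Or.inr (Or.inr (by rw [← h]; simp))
    · rintro ⟨a, b, c, ⟨h1, h2, h3⟩, h4, h5⟩
      refine ⟨σ a, σ b, σ c, ⟨(rl_arr r σ a b).2 h1, (rl_arr r σ b c).2 h2,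
        fun h => h3 ((rl_arr r σ a c).1 h)⟩, ?_, ?_⟩
      · rcases h4 with h | h | h
        · exact Or.inl (by rw [h])
        · exact Or.inr (Or.inl (by rw [h]))
        · exact Or.inr (Or.inr (by rw [h]))
      · rcases h5 with h | h | h
        · exact Or.inl (by rw [h])
        · exact Or.inr (Or.inl (by rw [h]))
        · exact Or.inr (Or.inr (by rw [h]))

theorem rl_con (m n : ℕ) : Con (rl r σ) (σ m) (σ n) ↔ Con r m n := by
  constructor
  · intro h
    have key : ∀ k, Con (rl r σ) (σ m) k → Con r m (σ.symm k) := by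
      intro k hk
      unfold Con at hk ⊢
      induction hk with
      | refl => rw [σ.symm_apply_apply]
      | @tail b c h1 h2 ih =>
        refine Relation.ReflTransGen.tail ih ?_
        rw [← rl_irr r σ, σ.apply_symm_apply, σ.apply_symm_apply]
        exact h2
    have := key _ h
    rwa [σ.symm_apply_apply] at this
  · intro h
    unfold Con at h ⊢
    induction h with
    | refl => exact Relation.ReflTransGen.refl
    | @tail b c h1 h2 ih => exact Relation.ReflTransGen.tail ih ((rl_irr r σ b c).2 h2)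

theorem rl_near (m n : ℕ) : Near (rl r σ) (σ m) (σ n) ↔ Near r m n := by
  unfold Near
  refine or_congr σ.injective.eq_iff (or_congr (rl_irr r σ m n) ?_)
  constructor
  · rintro ⟨w, h1, h2⟩
    refine ⟨σ.symm w, ?_, ?_⟩
    · rw [← rl_irr r σ, σ.apply_symm_apply]
      exact h1
    · rw [← rl_irr r σ, σ.apply_symm_apply]
      exact h2
  · rintro ⟨w, h1, h2⟩
    exact ⟨σ w, (rl_irr r σ _ _).2 h1, (rl_irr r σ _ _).2 h2⟩

theorem rl_ord (m n : ℕ) : Ord (rl r σ) (σ m) (σ n) ↔ Ord r m n := by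
  unfold Ord
  rw [rl_arr, rl_con]

end act

theorem code_act {a : ℕ → ℕ} (σ : Equiv.Perm ℕ) (x : XX a) :
    ∀ (i : ℕ) (v : Fin (br a i) → ℕ), code (rel σ x) i (⇑σ ∘ v) = code x i v := by
  intro i v
  match i, v with
  | 0, v =>
    refine Bool.eq_iff_iff.2 ((code_zero _ _).trans (Iff.trans ?_ (code_zero _ _).symm))
    rw [c0_comp (br0 a).1, c1_comp (br0 a).2]
    exact rl_ord x.1 σ _ _
  | 1, v =>
    refine Bool.eq_iff_iff.2 ((code_one _ _).trans (Iff.trans ?_ (code_one _ _).symm))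
    rw [c0_comp (br1 a).1, c1_comp (br1 a).2]
    exact rl_irr x.1 σ _ _
  | 2, v =>
    refine Bool.eq_iff_iff.2 ((code_two _ _).trans (Iff.trans ?_ (code_two _ _).symm))
    rw [c0_comp (br2 a).1, c1_comp (br2 a).2]
    refine and_congr ?_ (rl_near x.1 σ _ _)
    show x.1 (σ.symm (σ _)) (σ.symm (σ _)) = true ↔ _
    rw [σ.symm_apply_apply, σ.symm_apply_apply]
  | (i + 3), v =>
    show x.2 i (⇑σ.symm ∘ (⇑σ ∘ v)) = x.2 i v
    have e : (⇑σ.symm ∘ (⇑σ ∘ v)) = v := by
      funext k
      exact σ.symm_apply_apply (v k)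
    exact congrArg (x.2 i) e

/-! ### Injectivity -/

theorem code_inj {a : ℕ → ℕ} (x y : XX a) (h : code x = code y) : x = y := by
  have e0 : ∀ m n, Ord x.1 m n ↔ Ord y.1 m n := by
    intro m n
    have h1 := code_zero x (p2 m n)
    have h2 := code_zero y (p2 m n)
    rw [c0_p2 (br0 a).1, c1_p2 (br0 a).2] at h1 h2
    rw [← h1, ← h2, h]
  have e1 : ∀ m n, Irr x.1 m n ↔ Irr y.1 m n := by
    intro m n
    have h1 := code_one x (p2 m n)
    have h2 := code_one y (p2 m n)
    rw [c0_p2 (br1 a).1, c1_p2 (br1 a).2] at h1 h2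
    rw [← h1, ← h2, h]
  have hI : Irr x.1 = Irr y.1 := by
    funext m n
    exact propext (e1 m n)
  have hN : ∀ m n, Near x.1 m n ↔ Near y.1 m n := by
    intro m n
    unfold Near
    rw [hI]
  have e2 : ∀ m n, Near x.1 m n → x.1 m n = y.1 m n := by
    intro m n hmn
    have h1 := code_two x (p2 m n)
    have h2 := code_two y (p2 m n)
    rw [c0_p2 (br2 a).1, c1_p2 (br2 a).2] at h1 h2
    rw [h, h2] at h1
    have hmn' := (hN m n).1 hmn
    apply Bool.eq_iff_iff.2
    exact ⟨fun h4 => (h1.2 ⟨h4, hmn⟩).1, fun h4 => (h1.1 ⟨h4, hmn'⟩).1⟩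
  have hC : ∀ m n, Con x.1 m n ↔ Con y.1 m n := by
    intro m n
    unfold Con
    rw [hI]
  have k1 : x.1 = y.1 := by
    refine determined e1 e2 fun m n hmn => ?_
    have hmn' : ¬ Con y.1 m n := by rwa [← hC]
    have h1 := e0 m n
    unfold Ord at h1
    constructor
    · intro h2
      exact (h1.1 ⟨h2, hmn⟩).1
    · intro h2
      exact (h1.2 ⟨h2, hmn'⟩).1
  have k2 : x.2 = y.2 := by
    funext i
    exact congrFun h (i + 3)
  exact Prod.ext k1 k2

/-! ### Measurability -/

theorem m_arr {Ω : Type} [MeasurableSpace Ω] (f : Ω → ℕ → ℕ → Bool) (hf : Measurable f)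
    (m n : ℕ) : Measurable fun ω => Arr (f ω) m n := by
  have h1 : ∀ m n, Measurable fun ω => f ω m n := fun m n =>
    (measurable_pi_apply n).comp ((measurable_pi_apply m).comp hf)
  unfold Arr
  refine Measurable.and ?_ ?_
  · exact measurableSet_setOfPred.1 ((h1 m n) (measurableSet_singleton true))
  · exact measurableSet_setOfPred.1 ((h1 n m) (measurableSet_singleton false))

theorem m_irr {Ω : Type} [MeasurableSpace Ω] (f : Ω → ℕ → ℕ → Bool) (hf : Measurable f)
    (m n : ℕ) : Measurable fun ω => Irr (f ω) m n := by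
  unfold Irr Bad
  refine Measurable.and measurable_const (Measurable.or ?_ ?_)
  · exact (m_arr f hf m n).not.and (m_arr f hf n m).not
  · refine Measurable.exists fun a => Measurable.exists fun b => Measurable.exists fun c => ?_
    refine Measurable.and ?_ measurable_const
    exact (m_arr f hf a b).and ((m_arr f hf b c).and (m_arr f hf a c).not)

/-- walks of a given length -/
def Wk (r : ℕ → ℕ → Bool) : ℕ → ℕ → ℕ → Prop
  | 0, x, y => x = y
  | k + 1, x, y => ∃ z, Wk r k x z ∧ Irr r z y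

theorem con_wk (r : ℕ → ℕ → Bool) (x y : ℕ) : Con r x y ↔ ∃ k, Wk r k x y := by
  constructor
  · intro h
    unfold Con at h
    induction h with
    | refl => exact ⟨0, rfl⟩
    | @tail b c h1 h2 ih =>
      obtain ⟨k, hk⟩ := ih
      exact ⟨k + 1, b, hk, h2⟩
  · rintro ⟨k, hk⟩
    induction k generalizing y with
    | zero => exact hk ▸ con_refl _
    | succ k ih =>
      obtain ⟨z, h1, h2⟩ := hk
      exact con_trans (ih z h1) (con_irr h2)

theorem m_wk {Ω : Type} [MeasurableSpace Ω] (f : Ω → ℕ → ℕ → Bool) (hf : Measurable f)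
    (k m n : ℕ) : Measurable fun ω => Wk (f ω) k m n := by
  induction k generalizing n with
  | zero => exact measurable_const
  | succ k ih => exact Measurable.exists fun z => (ih z).and (m_irr f hf z n)

theorem m_con {Ω : Type} [MeasurableSpace Ω] (f : Ω → ℕ → ℕ → Bool) (hf : Measurable f)
    (m n : ℕ) : Measurable fun ω => Con (f ω) m n := by
  simp only [con_wk]
  exact Measurable.exists fun k => m_wk f hf k m n

theorem m_bool {Ω : Type} [MeasurableSpace Ω] (f : Ω → Bool) (P : Ω → Prop)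
    (h : ∀ ω, f ω = true ↔ P ω) (hP : Measurable P) : Measurable f := by
  apply measurable_to_bool
  have e : f ⁻¹' {true} = {ω | P ω} := by
    ext ω
    exact h ω
  rw [e]
  exact measurableSet_setOfPred.2 hP

theorem code_meas {a : ℕ → ℕ} : Measurable (code : XX a → RS (br a)) := by
  refine measurable_pi_iff.2 fun i => measurable_pi_iff.2 fun v => ?_
  match i, v with
  | 0, v =>
    refine m_bool _ _ (fun x => code_zero x v) ?_
    unfold Ord
    exact (m_arr _ measurable_fst _ _).and (m_con _ measurable_fst _ _).not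
  | 1, v => exact m_bool _ _ (fun x => code_one x v) (m_irr _ measurable_fst _ _)
  | 2, v =>
    refine m_bool _ _ (fun x => code_two x v) ?_
    refine Measurable.and ?_ ?_
    · have h1 : Measurable fun x : XX a => x.1 (c0 v) (c1 v) :=
        (measurable_pi_apply _).comp ((measurable_pi_apply _).comp measurable_fst)
      exact measurableSet_setOfPred.1 (h1 (measurableSet_singleton true))
    · unfold Near
      exact Measurable.or measurable_const (Measurable.or (m_irr _ measurable_fst _ _)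
        (Measurable.exists fun w => (m_irr _ measurable_fst _ _).and (m_irr _ measurable_fst _ _)))
  | (i + 3), v =>
    exact (measurable_pi_apply v).comp ((measurable_pi_apply i).comp measurable_snd)

/-! ### The code is an ordered sum of locally finite structures -/

theorem near_fin {r : ℕ → ℕ → Bool} (h : ∀ m, {n | Irr r m n}.Finite) (m : ℕ) :
    {n | Near r m n}.Finite := by
  have h1 : {n | Near r m n} ⊆ {m} ∪ ({n | Irr r m n} ∪ ⋃ w ∈ {n | Irr r m n},
      {n | Irr r w n}) := by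
    rintro n (rfl | h2 | ⟨w, h2, h3⟩)
    · exact Or.inl rfl
    · exact Or.inr (Or.inl h2)
    · exact Or.inr (Or.inr (mem_biUnion h2 h3))
  refine Finite.subset ?_ h1
  exact (finite_singleton m).union ((h m).union ((h m).biUnion fun w _ => h w))

theorem no_sub (G : SimpleGraph ℕ) (h : ∀ x, {y | G.Adj x y}.Finite) :
    ¬ HasCliqueSubdivision G := by
  rintro ⟨v, hv, P, h1, h2, h3⟩
  have hne : ∀ j, ¬ (P 0 (j + 1)).Nil := by
    intro j hn
    have := hv hn.eq
    omega
  have hadj : ∀ j, G.Adj (v 0) (P 0 (j + 1)).snd := fun j =>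
    SimpleGraph.Walk.adj_snd (hne j)
  have hmem : ∀ j, (P 0 (j + 1)).snd ∈ (P 0 (j + 1)).support := fun j =>
    SimpleGraph.Walk.getVert_mem_support _ _
  have hinj : Function.Injective fun j => (P 0 (j + 1)).snd := by
    intro j k hjk
    by_contra hne2
    have hjk' : (P 0 (j + 1)).snd = (P 0 (k + 1)).snd := hjk
    have hm2 : (P 0 (j + 1)).snd ∈ (P 0 (k + 1)).support := hjk' ▸ hmem k
    obtain ⟨l, hl⟩ := h3 0 (j + 1) 0 (k + 1) (by omega) (by omega)
      (fun h => hne2 (by have := congrArg Prod.snd h; simpa using this)) _ (hmem j) hm2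
    have a1 := h2 0 (j + 1) l (by omega) (hl ▸ hmem j)
    have a2 := h2 0 (k + 1) l (by omega) (hl ▸ hm2)
    have hl0 : l = 0 := by omega
    have a3 := hadj j
    rw [hl, hl0] at a3
    exact G.loopless.irrefl _ a3
  exact Set.infinite_range_of_injective hinj
    ((h (v 0)).subset (by rintro _ ⟨j, rfl⟩; exact hadj j))

theorem code_sum {a : ℕ → ℕ} (x : XX a) (hx : Alm x) :
    IsOSum 0 (fun z : RS (br a) => ¬ HasCliqueSubdivision (gaifman z)) (code x) := by
  have e0 : ∀ m n, code x 0 (p2 m n) = true ↔ Ord x.1 m n := by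
    intro m n
    have h1 := code_zero x (p2 m n)
    rwa [c0_p2 (br0 a).1, c1_p2 (br0 a).2] at h1
  have e0' : ∀ m n, code x 0 (p2 m n) = false ↔ ¬ Ord x.1 m n := by
    intro m n
    rw [← e0, Bool.not_eq_true]
  have hpair : ∀ i, i ≠ 0 → ∀ t : Fin (br a i) → ℕ, code x i t = true → ∀ j l,
      Near x.1 (t j) (t l) := by
    intro i hi t ht j l
    match i, t, j, l with
    | 0, t, j, l => exact absurd rfl hi
    | 1, t, j, l =>
      have h1 := (code_one x t).1 ht
      rcases c_cases t j with hj | hj <;> rcases c_cases t l with hl | hl <;> rw [hj, hl]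
      · exact Or.inl rfl
      · exact Or.inr (Or.inl h1)
      · exact Or.inr (Or.inl (irr_symm h1))
      · exact Or.inl rfl
    | 2, t, j, l =>
      have h1 := ((code_two x t).1 ht).2
      rcases c_cases t j with hj | hj <;> rcases c_cases t l with hl | hl <;> rw [hj, hl]
      · exact Or.inl rfl
      · exact h1
      · exact near_symm h1
      · exact Or.inl rfl
    | (i + 3), t, j, l =>
      rcases hx.loc i t ht j l with h1 | h1
      · exact Or.inl h1
      · exact Or.inr (Or.inl h1)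
  refine ⟨?_, ?_, ?_, ?_, ?_⟩
  · intro u
    rw [e0']
    exact ord_irr u
  · intro u v w
    rw [e0, e0, e0]
    exact ord_tr
  · intro u v w
    rw [e0, e0, e0]
    exact ord_weak
  · intro i hi t ht j l
    rw [e0']
    exact ord_con (con_near (hpair i hi t ht j l))
  · intro u e he _
    refine no_sub _ fun m => ?_
    have h1 : {n | (gaifman (fun (i : ℕ) (v : Fin (br a i) → ℕ) =>
        if i ≠ 0 then code x i (e ∘ v) else false)).Adj m n} ⊆ e ⁻¹' {n | Near x.1 (e m) n} := by
      rintro n ⟨-, i, t, h2, ⟨j, hj⟩, ⟨l, hl⟩⟩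
      have hi : i ≠ 0 := by
        intro h
        simp [h] at h2
      have h2' : code x i (e ∘ t) = true := by
        have h3 : (if i ≠ 0 then code x i (e ∘ t) else false) = true := h2
        rwa [if_pos hi] at h3
      have h4 := hpair i hi (e ∘ t) h2' j l
      show Near x.1 (e m) (e n)
      rw [← hj, ← hl]
      exact h4
    exact ((near_fin hx.fin (e m)).preimage he.injOn).subset h1

/-- The dichotomy for locally almost linear relations. -/
theorem main {a : ℕ → ℕ} (B : Set (XX a)) (hB : MeasurableSet B) (hA : ∀ x ∈ B, Alm x)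
    (hi : ∀ x ∈ B, ∀ σ, rel σ x ∈ B) :
    (∃ f : ℕ → XX a, ∀ x ∈ B, ∃ n, ∃ σ : Equiv.Perm ℕ, x = rel σ (f n)) ∨
    (∃ g : (ℕ → Bool) → XX a, Continuous g ∧ (∀ A, g A ∈ B) ∧
      ∀ A A', (∃ σ : Equiv.Perm ℕ, g A' = rel σ (g A)) → A = A') := by
  have h1 : PolishSpace (RS a) := Pool.Agent.H533R2.VS.kis_pRS a
  have h2 : PolishSpace (ℕ → Bool) := Pool.Agent.H533R2.VS.kis_pB ℕ
  have h3 : PolishSpace (ℕ → ℕ → Bool) := by
    have k1 : SecondCountableTopology (ℕ → ℕ → Bool) := inferInstance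
    have k2 : TopologicalSpace.SeparableSpace (ℕ → ℕ → Bool) := inferInstance
    have k3 : TopologicalSpace.IsCompletelyMetrizableSpace (ℕ → ℕ → Bool) := inferInstance
    infer_instance
  have h4 : PolishSpace (XX a) := by
    have k1 : SecondCountableTopology (XX a) := inferInstance
    have k2 : TopologicalSpace.SeparableSpace (XX a) := inferInstance
    have k3 : TopologicalSpace.IsCompletelyMetrizableSpace (XX a) := inferInstance
    infer_instance
  have h5 : BorelSpace (XX a) := inferInstance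
  have hV : VC (IsOSum 0 (fun z : RS (br a) => ¬ HasCliqueSubdivision (gaifman z))) :=
    Pool.Agent.H533R2.VS.pln_ord (br a) 0 rfl _
      (Pool.Agent.H533R2.VS.vs_plain _ _ (Pool.Agent.H533R2.VS.vs_sparse (br a)))
  exact transfer rel Alm _ code code_meas (fun x y _ _ h => code_inj x y h) code_act
    code_sum hV B hB hA hi

end Pool.Agent.H31R3.AL
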