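import Mathlib

set_option autoImplicit false

/-! Locally almost linear relations: combinatorics of irregular pairs. -/

namespace Pool.Agent.H31R3.AL

/-- `x → y` -/
def Arr (r : ℕ → ℕ → Bool) (x y : ℕ) : Prop := r x y = true ∧ r y x = false

/-- transitivity fails along `a → b → c` -/
def Bad (r : ℕ → ℕ → Bool) (a b c : ℕ) : Prop := Arr r a b ∧ Arr r b c ∧ ¬ Arr r a c

/-- irregular pairs -/
def Irr (r : ℕ → ℕ → Bool) (x y : ℕ) : Prop := x ≠ y ∧ ((¬ Arr r x y ∧ ¬ Arr r y x) ∨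
  ∃ a b c, Bad r a b c ∧ (x = a ∨ x = b ∨ x = c) ∧ (y = a ∨ y = b ∨ y = c))

/-- connected by irregular pairs -/
def Con (r : ℕ → ℕ → Bool) (x y : ℕ) : Prop := Relation.ReflTransGen (Irr r) x y

/-- at distance at most two -/
def Near (r : ℕ → ℕ → Bool) (x y : ℕ) : Prop := x = y ∨ Irr r x y ∨ ∃ w, Irr r x w ∧ Irr r w y

variable {r : ℕ → ℕ → Bool}

theorem arr_asymm {x y : ℕ} (h : Arr r x y) : ¬ Arr r y x := by
  rintro ⟨h1, h2⟩
  rw [h.1] at h2
  exact Bool.noConfusion h2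

theorem arr_irrefl (x : ℕ) : ¬ Arr r x x := fun h => arr_asymm h h

theorem arr_ne {x y : ℕ} (h : Arr r x y) : x ≠ y := by
  rintro rfl
  exact arr_irrefl _ h

theorem irr_symm {x y : ℕ} (h : Irr r x y) : Irr r y x := by
  obtain ⟨h1, h2⟩ := h
  refine ⟨h1.symm, ?_⟩
  rcases h2 with h2 | ⟨a, b, c, h3, h4, h5⟩
  · exact Or.inl ⟨h2.2, h2.1⟩
  · exact Or.inr ⟨a, b, c, h3, h5, h4⟩

theorem reg {x y : ℕ} (h : x ≠ y) (h1 : ¬ Irr r x y) : Arr r x y ∨ Arr r y x := by
  by_contra h2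
  push Not at h2
  exact h1 ⟨h, Or.inl h2⟩

theorem tr1 {x y z : ℕ} (h1 : Arr r x y) (h2 : Arr r y z) (h : ¬ Irr r x y) : Arr r x z := by
  by_contra h3
  exact h ⟨arr_ne h1, Or.inr ⟨x, y, z, ⟨h1, h2, h3⟩, Or.inl rfl, Or.inr (Or.inl rfl)⟩⟩

theorem tr2 {x y z : ℕ} (h1 : Arr r x y) (h2 : Arr r y z) (h : ¬ Irr r y z) : Arr r x z := by
  by_contra h3
  exact h ⟨arr_ne h2, Or.inr ⟨x, y, z, ⟨h1, h2, h3⟩, Or.inr (Or.inl rfl), Or.inr (Or.inr rfl)⟩⟩

theorem dir1 {y u v : ℕ} (h : Irr r u v) (h1 : ¬ Irr r y u) (h2 : ¬ Irr r y v)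
    (h3 : y ≠ v) (h4 : Arr r u y) : Arr r v y := by
  rcases reg h3 h2 with h5 | h5
  swap
  · exact h5
  exfalso
  have h1' : ¬ Irr r u y := fun h => h1 (irr_symm h)
  have huv : Arr r u v := tr1 h4 h5 h1'
  obtain ⟨-, h6 | ⟨a, b, c, ⟨hab, hbc, hac⟩, hu, hv⟩⟩ := h
  · exact h6.1 huv
  rcases hu with rfl | rfl | rfl <;> rcases hv with rfl | rfl | rfl
  · exact arr_irrefl _ huv
  · have h7 := tr1 h5 hbc h2
    exact hac (tr1 h4 h7 h1')
  · exact hac huv
  · exact arr_asymm huv hab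
  · exact arr_irrefl _ huv
  · have h7 := tr2 hab h4 h1'
    exact hac (tr2 h7 h5 h2)
  · have h7 := tr1 h5 hab h2
    have h8 := tr2 hbc h4 h1'
    exact arr_asymm h7 h8
  · exact arr_asymm huv hbc
  · exact arr_irrefl _ huv

theorem dir2 {y u v : ℕ} (h : Irr r u v) (h1 : ¬ Irr r y u) (h2 : ¬ Irr r y v)
    (h3 : y ≠ u) (h4 : y ≠ v) : Arr r u y ↔ Arr r v y :=
  ⟨dir1 h h1 h2 h4, dir1 (irr_symm h) h2 h1 h3⟩

theorem dir3 {y u v : ℕ} (h : Irr r u v) (h1 : ¬ Irr r y u) (h2 : ¬ Irr r y v)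
    (h3 : y ≠ u) (h4 : y ≠ v) : Arr r y u ↔ Arr r y v := by
  have h5 := dir2 h h1 h2 h3 h4
  constructor
  · intro h6
    rcases reg h4 h2 with h7 | h7
    · exact h7
    · exact absurd (h5.2 h7) (arr_asymm h6)
  · intro h6
    rcases reg h3 h1 with h7 | h7
    · exact h7
    · exact absurd (h5.1 h7) (arr_asymm h6)

theorem con_symm {x y : ℕ} (h : Con r x y) : Con r y x := by
  unfold Con at h ⊢
  induction h with
  | refl => exact Relation.ReflTransGen.refl
  | tail _ h2 ih => exact Relation.ReflTransGen.head (irr_symm h2) ih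

theorem con_refl (x : ℕ) : Con r x x := Relation.ReflTransGen.refl

theorem con_trans {x y z : ℕ} (h1 : Con r x y) (h2 : Con r y z) : Con r x z :=
  Relation.ReflTransGen.trans h1 h2

theorem con_irr {x y : ℕ} (h : Irr r x y) : Con r x y := Relation.ReflTransGen.single h

theorem con_near {x y : ℕ} (h : Near r x y) : Con r x y := by
  rcases h with rfl | h | ⟨w, h1, h2⟩
  · exact con_refl _
  · exact con_irr h
  · exact con_trans (con_irr h1) (con_irr h2)

theorem ncon_reg {x y : ℕ} (h : ¬ Con r x y) : Arr r x y ∨ Arr r y x :=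
  reg (fun h1 => h (h1 ▸ con_refl _)) fun h1 => h (con_irr h1)

/-- the direction does not depend on the element of a component -/
theorem dirC {y u v : ℕ} (h : Con r u v) (h1 : ¬ Con r y u) : Arr r u y ↔ Arr r v y := by
  unfold Con at h
  induction h with
  | refl => exact Iff.rfl
  | @tail b c h2 h3 ih =>
    rw [ih]
    have hb : ¬ Con r y b := fun h4 => h1 (con_trans h4 (con_symm h2))
    have hc : ¬ Con r y c := fun h4 => hb (con_trans h4 (con_irr (irr_symm h3)))
    exact dir2 h3 (fun h => hb (con_irr h)) (fun h => hc (con_irr h))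
      (fun h => hb (h ▸ con_refl _)) (fun h => hc (h ▸ con_refl _))

theorem dirC' {y u v : ℕ} (h : Con r u v) (h1 : ¬ Con r y u) : Arr r y u ↔ Arr r y v := by
  have h2 := dirC h h1
  have h3 : ¬ Con r y v := fun h4 => h1 (con_trans h4 (con_symm h))
  constructor
  · intro h4
    rcases ncon_reg h3 with h5 | h5
    · exact h5
    · exact absurd (h2.2 h5) (arr_asymm h4)
  · intro h4
    rcases ncon_reg h1 with h5 | h5
    · exact h5
    · exact absurd (h2.1 h5) (arr_asymm h4)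

/-- steps away from `x` -/
def Stp (r : ℕ → ℕ → Bool) (x u v : ℕ) : Prop := Irr r u v ∧ x ≠ v ∧ ¬ Irr r x v

theorem prop {x w v : ℕ} (hw : x ≠ w) (hw' : ¬ Irr r x w)
    (h : Relation.ReflTransGen (Stp r x) w v) :
    x ≠ v ∧ ¬ Irr r x v ∧ (Arr r x w ↔ Arr r x v) := by
  induction h with
  | refl => exact ⟨hw, hw', Iff.rfl⟩
  | @tail b c h2 h3 ih =>
    obtain ⟨i1, i2, i3⟩ := ih
    refine ⟨h3.2.1, h3.2.2, ?_⟩
    rw [i3]
    exact dir3 h3.1 i2 h3.2.2 i1 h3.2.1

theorem reach {x v : ℕ} (h : Con r x v) : Near r x v ∨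
    ∃ w, Near r x w ∧ x ≠ w ∧ ¬ Irr r x w ∧ Relation.ReflTransGen (Stp r x) w v := by
  unfold Con at h
  induction h with
  | refl => exact Or.inl (Or.inl rfl)
  | @tail b c h2 h3 ih =>
    by_cases hc : x = c
    · exact Or.inl (Or.inl hc)
    by_cases hc' : Irr r x c
    · exact Or.inl (Or.inr (Or.inl hc'))
    rcases ih with ih | ⟨w, i1, i2, i3, i4⟩
    · rcases ih with rfl | ih | ih
      · exact absurd h3 hc'
      · exact Or.inl (Or.inr (Or.inr ⟨b, ih, h3⟩))
      · by_cases hb : x = b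
        · exact absurd (hb ▸ h3) hc'
        by_cases hb' : Irr r x b
        · exact Or.inl (Or.inr (Or.inr ⟨b, hb', h3⟩))
        · exact Or.inr ⟨b, Or.inr (Or.inr ih), hb, hb', Relation.ReflTransGen.single
            ⟨h3, hc, hc'⟩⟩
    · exact Or.inr ⟨w, i1, i2, i3, Relation.ReflTransGen.tail i4 ⟨h3, hc, hc'⟩⟩

theorem near_symm {x y : ℕ} (h : Near r x y) : Near r y x := by
  rcases h with rfl | h | ⟨w, h1, h2⟩
  · exact Or.inl rfl
  · exact Or.inr (Or.inl (irr_symm h))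
  · exact Or.inr (Or.inr ⟨w, irr_symm h2, irr_symm h1⟩)

theorem reg_val {r : ℕ → ℕ → Bool} {x y : ℕ} (h : Arr r x y ∨ Arr r y x) :
    r x y = true ↔ Arr r x y := by
  constructor
  · intro h1
    rcases h with h | h
    · exact h
    · have := h.2
      rw [h1] at this
      exact Bool.noConfusion this
  · exact fun h1 => h1.1

/-- the relation is determined by its irregular pairs, its restriction to close pairs and the
order of the components -/
theorem determined {r r' : ℕ → ℕ → Bool} (h1 : ∀ x y, Irr r x y ↔ Irr r' x y)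
    (h2 : ∀ x y, Near r x y → r x y = r' x y)
    (h3 : ∀ x y, ¬ Con r x y → (Arr r x y ↔ Arr r' x y)) : r = r' := by
  have hI : Irr r = Irr r' := by
    funext x y
    exact propext (h1 x y)
  have hC : ∀ x y, Con r x y ↔ Con r' x y := by
    intro x y
    unfold Con
    rw [hI]
  have hS : ∀ x, Stp r x = Stp r' x := by
    intro x
    unfold Stp
    rw [hI]
  have key : ∀ x y, r x y = true ↔ r' x y = true := by
    intro x y
    by_cases hc : Con r x y
    · rcases reach hc with h4 | ⟨w, i1, i2, i3, i4⟩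
      · rw [h2 x y h4]
      · obtain ⟨j1, j2, j3⟩ := prop i2 i3 i4
        have i3' : ¬ Irr r' x w := by rwa [← h1]
        have i4' : Relation.ReflTransGen (Stp r' x) w y := by rwa [← hS]
        obtain ⟨k1, k2, k3⟩ := prop i2 i3' i4'
        rw [reg_val (reg j1 j2), reg_val (reg k1 k2), ← j3, ← k3]
        unfold Arr
        rw [h2 x w i1, h2 w x (near_symm i1)]
    · have hc' : ¬ Con r' x y := by rwa [← hC]
      rw [reg_val (ncon_reg hc), reg_val (ncon_reg hc')]
      exact h3 x y hc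
  funext x y
  exact Bool.eq_iff_iff.2 (key x y)

/-! ### The order of the components -/

/-- the order of the components -/
def Ord (r : ℕ → ℕ → Bool) (x y : ℕ) : Prop := Arr r x y ∧ ¬ Con r x y

theorem ord_irr (x : ℕ) : ¬ Ord r x x := fun h => h.2 (con_refl x)

theorem ord_tr {x y z : ℕ} (h1 : Ord r x y) (h2 : Ord r y z) : Ord r x z := by
  refine ⟨tr1 h1.1 h2.1 fun h => h1.2 (con_irr h), fun h => ?_⟩
  have h3 := (dirC h (fun h4 => h1.2 (con_symm h4))).1 h1.1
  exact arr_asymm h3 h2.1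

theorem ord_weak {x y z : ℕ} (h : Ord r x z) : Ord r x y ∨ Ord r y z := by
  by_cases hxy : Con r x y
  · right
    refine ⟨(dirC hxy fun h4 => h.2 (con_symm h4)).1 h.1, fun h4 => h.2 (con_trans hxy h4)⟩
  · rcases ncon_reg hxy with h1 | h1
    · exact Or.inl ⟨h1, hxy⟩
    · right
      have h2 : Arr r y z := tr1 h1 h.1 fun h4 => hxy (con_irr (irr_symm h4))
      refine ⟨h2, fun h4 => ?_⟩
      have h5 := (dirC h4 hxy).1 h1
      exact arr_asymm h.1 h5

theorem ord_con {x y : ℕ} (h : Con r x y) : ¬ Ord r x y := fun h1 => h1.2 h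

end Pool.Agent.H31R3.AL
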